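import Pool.Agent.V5helper19.QC.Stm

/-!
# Project QC, job AN2: two integrals with positive real part
-/

set_option autoImplicit false

open Finset MeasureTheory

namespace Pool.Agent.V5helper37.QC

open V5helper19.QC

lemma int_exp (κ r b : ℝ) (hκ : 0 < κ) (hr : 0 ≤ r) :
    ∫ θ in r..b, Real.exp (-(κ * θ)) ≤ 1 / κ := by
  have h := intervalIntegral.integral_eq_sub_of_hasDerivAt (a := r) (b := b)
    (f := fun θ : ℝ => -(Real.exp (-(κ * θ)) / κ)) (f' := fun θ : ℝ => Real.exp (-(κ * θ)))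
    (fun x _ => by
      have h1 : HasDerivAt (fun θ : ℝ => Real.exp (-(κ * θ))) (Real.exp (-(κ * x)) * (-κ)) x := by
        have h2 : HasDerivAt (fun θ : ℝ => -(κ * θ)) (-κ) x := by
          have h0 : HasDerivAt (fun θ : ℝ => κ * θ) κ x := by
            simpa using (hasDerivAt_id x).const_mul κ
          exact h0.neg
        exact h2.exp
      have h3 := (h1.div_const κ).neg
      refine h3.congr_deriv ?_
      field_simp)
    (by apply Continuous.intervalIntegrable; fun_prop)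
  rw [h]
  have h4 : Real.exp (-(κ * r)) ≤ 1 := by
    rw [Real.exp_le_one_iff]
    have := mul_nonneg hκ.le hr
    linarith
  have h5 : 0 < Real.exp (-(κ * b)) := Real.exp_pos _
  have h6 : Real.exp (-(κ * r)) / κ ≤ 1 / κ := div_le_div_of_nonneg_right h4 hκ.le
  have h7 : 0 < Real.exp (-(κ * b)) / κ := by positivity
  linarith

/-- the tail -/
lemma tail (F : ℝ → ℂ) (hF : Continuous F) (r κ η : ℝ) (hr : 0 ≤ r) (hrp : r ≤ Real.pi)
    (hκ : 0 < κ) (hη : 0 ≤ η)
    (h : ∀ θ, r ≤ θ → θ ≤ Real.pi → -(Real.exp 1 * Real.exp (-(κ * θ))) - η ≤ (F θ).re) :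
    -(Real.exp 1 / κ) - Real.pi * η ≤ ∫ θ in r..Real.pi, (F θ).re := by
  have hre : Continuous fun θ => (F θ).re := Complex.continuous_re.comp hF
  have h1 : ∫ θ in r..Real.pi, (-(Real.exp 1 * Real.exp (-(κ * θ))) - η) ≤
      ∫ θ in r..Real.pi, (F θ).re := by
    apply intervalIntegral.integral_mono_on hrp
    · apply Continuous.intervalIntegrable
      fun_prop
    · exact hre.intervalIntegrable _ _
    · intro x hx
      exact h x hx.1 hx.2
  refine le_trans ?_ h1
  rw [intervalIntegral.integral_sub (by apply Continuous.intervalIntegrable; fun_prop)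
    (by apply Continuous.intervalIntegrable; fun_prop), intervalIntegral.integral_neg,
    intervalIntegral.integral_const_mul, intervalIntegral.integral_const, smul_eq_mul]
  have h2 := int_exp κ r Real.pi hκ hr
  have h3 : Real.exp 1 * ∫ θ in r..Real.pi, Real.exp (-(κ * θ)) ≤ Real.exp 1 / κ := by
    have := mul_le_mul_of_nonneg_left h2 (Real.exp_pos 1).le
    rwa [mul_one_div] at this
  have h4 : (Real.pi - r) * η ≤ Real.pi * η := mul_le_mul_of_nonneg_right (by linarith) hη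
  linarith

lemma re_exp (σ θ : ℝ) (ρ : ℂ) : (Complex.exp (-(σ : ℂ) * (θ : ℂ) ^ 2 / 2 + ρ)).re =
    Real.exp (-(σ * θ ^ 2 / 2) + ρ.re) * Real.cos ρ.im := by
  have h1 : (-(σ : ℂ) * (θ : ℂ) ^ 2 / 2 + ρ) = ((-(σ * θ ^ 2 / 2) : ℝ) : ℂ) + ρ := by
    push_cast
    ring
  rw [h1, Complex.exp_re, Complex.add_re, Complex.add_im, Complex.ofReal_re, Complex.ofReal_im,
    zero_add]

lemma cos_half (x : ℝ) (hx : |x| ≤ 1) : 1 / 2 ≤ Real.cos x := by
  have h := Real.one_sub_sq_div_two_le_cos (x := x)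
  have h2 : x ^ 2 ≤ 1 := by
    rw [← sq_abs]
    have := abs_nonneg x
    nlinarith
  linarith

lemma main (c C K δ c' C' : ℝ) (hc : 0 < c) (hC : 0 < C) (hK : 0 < K) (hδ : 0 < δ)
    (hKδ : K * δ ≤ c / 8) (hc' : 0 < c') (hC' : 0 < C') :
    ∃ N0 : ℝ, 0 < N0 ∧ ∀ (N σ : ℝ) (F : ℝ → ℂ), N0 ≤ N → c * N ^ 3 ≤ σ →
      σ ≤ C * N ^ 3 → Continuous F →
      (∀ θ : ℝ, |θ| ≤ δ / N → ∃ ρ : ℂ, F θ = Complex.exp (-(σ : ℂ) * (θ : ℂ) ^ 2 / 2 + ρ) ∧
        ‖ρ‖ ≤ 2 * |θ| + K * N ^ 4 * |θ| ^ 3) →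
      (∀ θ : ℝ, δ / N ≤ |θ| → |θ| ≤ Real.pi → ‖F θ‖ ≤ C' * N ^ 2 * Real.exp (-(c' * N))) →
      0 < (∫ θ in (-Real.pi)..Real.pi, F θ).re := by
  set a : ℝ := Real.exp (-(C / 2) - 1) / 2 with ha
  have ha0 : 0 < a := by positivity
  have ha1 : a ≤ 1 := by
    have : Real.exp (-(C / 2) - 1) ≤ 1 := by
      rw [Real.exp_le_one_iff]
      linarith
    rw [ha]
    linarith
  set T : ℝ := 32 * Real.exp 1 / (3 * c * a) + 1 with hT
  have hT1 : 1 ≤ T := by
    have : 0 ≤ 32 * Real.exp 1 / (3 * c * a) := by positivity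
    rw [hT]
    linarith
  set s0 : ℝ := 1 + (2 * T + K * T ^ 3) + T / δ with hs0
  have hs01 : 1 ≤ s0 := by
    have : 0 ≤ (2 * T + K * T ^ 3) + T / δ := by positivity
    rw [hs0]
    linarith
  set N1 : ℝ := 480 * Real.pi * C' / (a * c' ^ 5) with hN1
  have hN10 : 0 < N1 := by
    have := Real.pi_pos
    positivity
  refine ⟨s0 ^ 2 + 2 * δ + N1, by positivity, ?_⟩
  intro N σ F hN hσ1 hσ2 hF hnear hfar
  have hpi := Real.pi_pos
  have hpi3 := Real.pi_gt_three
  have hNs0 : s0 ^ 2 ≤ N := by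
    have : 0 ≤ 2 * δ + N1 := by positivity
    linarith
  have hNδ : 2 * δ ≤ N := by
    have : 0 ≤ s0 ^ 2 + N1 := by positivity
    linarith
  have hNN1 : N1 ≤ N := by
    have : 0 ≤ s0 ^ 2 + 2 * δ := by positivity
    linarith
  have hN0 : 0 < N := lt_of_lt_of_le (by positivity) hNs0
  set s : ℝ := Real.sqrt N with hs
  have hsN : N = s ^ 2 := (Real.sq_sqrt hN0.le).symm
  have hs0s : s0 ≤ s := by
    rw [hs]
    exact Real.le_sqrt_of_sq_le hNs0
  have hs1 : 1 ≤ s := hs01.trans hs0s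
  have hspos : 0 < s := by linarith
  have hTK : 2 * T + K * T ^ 3 ≤ s := by
    have : 0 ≤ T / δ := by positivity
    linarith
  have hTδ : T / δ ≤ s := by
    have : 0 ≤ 2 * T + K * T ^ 3 := by positivity
    linarith
  have hσ0 : 0 < σ := lt_of_lt_of_le (by positivity) hσ1
  -- the middle region
  have hmid : ∀ θ : ℝ, |θ| ≤ T / s ^ 3 → |θ| ≤ δ / N := by
    intro θ hθ
    refine hθ.trans ?_
    rw [hsN, div_le_div_iff₀ (by positivity) (by positivity)]
    have h1 : T ≤ s * δ := by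
      rw [div_le_iff₀ hδ] at hTδ
      exact hTδ
    calc T * s ^ 2 ≤ (s * δ) * s ^ 2 := mul_le_mul_of_nonneg_right h1 (by positivity)
      _ = δ * s ^ 3 := by ring
  have hρ : ∀ (θ : ℝ) (ρ : ℂ), |θ| ≤ T / s ^ 3 → ‖ρ‖ ≤ 2 * |θ| + K * N ^ 4 * |θ| ^ 3 →
      ‖ρ‖ ≤ 1 := by
    intro θ ρ hθ hρ
    have h1 : |θ| ^ 3 ≤ (T / s ^ 3) ^ 3 := pow_le_pow_left₀ (abs_nonneg _) hθ 3
    have h2 : K * N ^ 4 * |θ| ^ 3 ≤ K * N ^ 4 * (T / s ^ 3) ^ 3 :=
      mul_le_mul_of_nonneg_left h1 (by positivity)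
    have h3 : K * N ^ 4 * (T / s ^ 3) ^ 3 = K * T ^ 3 / s := by
      rw [hsN]
      field_simp
    have h4 : T / s ^ 3 ≤ T / s := by
      apply div_le_div_of_nonneg_left (by positivity) hspos
      exact le_self_pow₀ hs1 (by norm_num)
    have h5 : (2 * T + K * T ^ 3) / s ≤ 1 := by
      rw [div_le_one hspos]
      exact hTK
    have h6 : 2 * (T / s) + K * T ^ 3 / s = (2 * T + K * T ^ 3) / s := by ring
    linarith
  -- the real part is at least 0 in the middle region
  have hpos : ∀ θ : ℝ, |θ| ≤ T / s ^ 3 → 0 ≤ (F θ).re := by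
    intro θ hθ
    obtain ⟨ρ, h1, h2⟩ := hnear θ (hmid θ hθ)
    have h3 := hρ θ ρ hθ h2
    rw [h1, re_exp]
    have h4 := cos_half ρ.im ((Complex.abs_im_le_norm ρ).trans h3)
    have : 0 ≤ Real.cos ρ.im := by linarith
    positivity
  have hcore : ∀ θ : ℝ, |θ| ≤ 1 / s ^ 3 → a ≤ (F θ).re := by
    intro θ hθ
    have hθT : |θ| ≤ T / s ^ 3 := hθ.trans (div_le_div_of_nonneg_right hT1 (by positivity))
    obtain ⟨ρ, h1, h2⟩ := hnear θ (hmid θ hθT)
    have h3 := hρ θ ρ hθT h2
    rw [h1, re_exp]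
    have h4 := cos_half ρ.im ((Complex.abs_im_le_norm ρ).trans h3)
    have h5 : -1 ≤ ρ.re := by
      have := (abs_le.1 ((Complex.abs_re_le_norm ρ).trans h3)).1
      exact this
    have h6 : σ * θ ^ 2 / 2 ≤ C / 2 := by
      have h7 : θ ^ 2 ≤ (1 / s ^ 3) ^ 2 := by
        rw [← sq_abs]
        exact pow_le_pow_left₀ (abs_nonneg _) hθ 2
      have h8 : σ * θ ^ 2 ≤ (C * N ^ 3) * (1 / s ^ 3) ^ 2 :=
        mul_le_mul hσ2 h7 (sq_nonneg _) (by positivity)
      have h9 : (C * N ^ 3) * (1 / s ^ 3) ^ 2 = C := by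
        rw [hsN]
        field_simp
      linarith
    have h10 : Real.exp (-(C / 2) - 1) ≤ Real.exp (-(σ * θ ^ 2 / 2) + ρ.re) :=
      Real.exp_le_exp.2 (by linarith)
    calc a = Real.exp (-(C / 2) - 1) * (1 / 2) := by rw [ha]; ring
      _ ≤ Real.exp (-(σ * θ ^ 2 / 2) + ρ.re) * Real.cos ρ.im :=
        mul_le_mul h10 h4 (by norm_num) (Real.exp_pos _).le
  set κ : ℝ := 3 / 8 * c * T * s ^ 3 with hκ
  have hκ0 : 0 < κ := by positivity
  set η : ℝ := C' * N ^ 2 * Real.exp (-(c' * N)) with hη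
  have hη0 : 0 < η := by positivity
  have hall : ∀ θ : ℝ, |θ| ≤ Real.pi → -(Real.exp 1 * Real.exp (-(κ * |θ|))) - η ≤ (F θ).re := by
    intro θ hθπ
    have hE : 0 < Real.exp 1 * Real.exp (-(κ * |θ|)) := by positivity
    rcases le_or_gt |θ| (T / s ^ 3) with h1 | h1
    · have := hpos θ h1
      linarith
    rcases le_or_gt |θ| (δ / N) with h2 | h2
    · obtain ⟨ρ, h3, h4⟩ := hnear θ h2
      have h5 : ‖F θ‖ ≤ Real.exp 1 * Real.exp (-(κ * |θ|)) := by
        rw [h3, Complex.norm_exp, ← Real.exp_add]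
        apply Real.exp_le_exp.2
        have h6 : (-(σ : ℂ) * (θ : ℂ) ^ 2 / 2 + ρ).re = -(σ * θ ^ 2 / 2) + ρ.re := by
          have h7 : (-(σ : ℂ) * (θ : ℂ) ^ 2 / 2 + ρ) = ((-(σ * θ ^ 2 / 2) : ℝ) : ℂ) + ρ := by
            push_cast
            ring
          rw [h7, Complex.add_re, Complex.ofReal_re]
        rw [h6]
        have h8 : ρ.re ≤ 2 * |θ| + K * N ^ 4 * |θ| ^ 3 :=
          ((le_abs_self _).trans (Complex.abs_re_le_norm ρ)).trans h4
        have hθ0 : 0 ≤ |θ| := abs_nonneg _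
        have h9 : 2 * |θ| ≤ 1 := by
          have h10 : 2 * |θ| ≤ 2 * (δ / N) := by linarith
          have h11 : 2 * (δ / N) ≤ 1 := by
            rw [← mul_div_assoc, div_le_one hN0]
            exact hNδ
          linarith
        have h12 : K * N ^ 4 * |θ| ^ 3 ≤ 1 / 8 * (σ * θ ^ 2) := by
          have h13 : N * |θ| ≤ δ := by
            rw [le_div_iff₀ hN0] at h2
            linarith
          have h14 : K * N ^ 4 * |θ| ^ 3 = K * (N * |θ|) * (N ^ 3 * θ ^ 2) := by
            rw [← sq_abs θ]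
            ring
          rw [h14]
          have h15 : K * (N * |θ|) ≤ c / 8 :=
            (mul_le_mul_of_nonneg_left h13 hK.le).trans hKδ
          have h16 : 0 ≤ N ^ 3 * θ ^ 2 := by positivity
          calc K * (N * |θ|) * (N ^ 3 * θ ^ 2) ≤ c / 8 * (N ^ 3 * θ ^ 2) :=
                mul_le_mul_of_nonneg_right h15 h16
            _ = 1 / 8 * (c * N ^ 3 * θ ^ 2) := by ring
            _ ≤ 1 / 8 * (σ * θ ^ 2) := by
                have := mul_le_mul_of_nonneg_right hσ1 (sq_nonneg θ)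
                linarith
        have h17 : κ * |θ| ≤ 3 / 8 * (σ * θ ^ 2) := by
          have h18 : c * N ^ 3 * θ ^ 2 ≤ σ * θ ^ 2 := mul_le_mul_of_nonneg_right hσ1 (sq_nonneg θ)
          have h19 : T * s ^ 3 * |θ| ≤ N ^ 3 * θ ^ 2 := by
            have h20 : T ≤ |θ| * s ^ 3 := by
              rw [div_lt_iff₀ (by positivity)] at h1
              exact h1.le
            calc T * s ^ 3 * |θ| ≤ (|θ| * s ^ 3) * s ^ 3 * |θ| := by
                  apply mul_le_mul_of_nonneg_right _ hθ0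
                  exact mul_le_mul_of_nonneg_right h20 (by positivity)
              _ = N ^ 3 * θ ^ 2 := by
                  rw [hsN, ← sq_abs θ]
                  ring
          have h21 : c * (T * s ^ 3 * |θ|) ≤ c * (N ^ 3 * θ ^ 2) :=
            mul_le_mul_of_nonneg_left h19 hc.le
          have h23 : κ * |θ| = 3 / 8 * (c * (T * s ^ 3 * |θ|)) := by
            rw [hκ]
            ring
          have h24 : c * (N ^ 3 * θ ^ 2) = c * N ^ 3 * θ ^ 2 := by ring
          linarith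
        linarith
      have h22 : -‖F θ‖ ≤ (F θ).re := (abs_le.1 (Complex.abs_re_le_norm _)).1
      linarith
    · have h5 := hfar θ h2.le hθπ
      have h22 : -‖F θ‖ ≤ (F θ).re := (abs_le.1 (Complex.abs_re_le_norm _)).1
      linarith
  -- the integrals
  set r : ℝ := 1 / s ^ 3 with hr
  have hr0 : 0 < r := by positivity
  have hr1 : r ≤ 1 := by
    rw [hr, div_le_one (by positivity)]
    exact one_le_pow₀ hs1
  have hrp : r ≤ Real.pi := by linarith
  have hre : Continuous fun θ => (F θ).re := Complex.continuous_re.comp hF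
  have hI : (∫ θ in (-Real.pi)..Real.pi, F θ).re = ∫ θ in (-Real.pi)..Real.pi, (F θ).re := by
    have h2 := Complex.reCLM.intervalIntegral_comp_comm (μ := volume) (a := -Real.pi) (b := Real.pi)
      (f := F) (hF.intervalIntegrable _ _)
    exact h2.symm
  rw [hI, ← intervalIntegral.integral_add_adjacent_intervals (b := -r)
    (hre.intervalIntegrable _ _) (hre.intervalIntegrable _ _),
    ← intervalIntegral.integral_add_adjacent_intervals (a := -r) (b := r)
    (hre.intervalIntegrable _ _) (hre.intervalIntegrable _ _)]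
  have hA : 2 * r * a ≤ ∫ θ in (-r)..r, (F θ).re := by
    have h1 : ∫ θ in (-r)..r, a ≤ ∫ θ in (-r)..r, (F θ).re := by
      apply intervalIntegral.integral_mono_on (by linarith)
      · apply Continuous.intervalIntegrable
        fun_prop
      · exact hre.intervalIntegrable _ _
      · intro x hx
        exact hcore x (abs_le.2 ⟨hx.1, hx.2⟩)
    rw [intervalIntegral.integral_const, smul_eq_mul] at h1
    linarith
  have hB : -(Real.exp 1 / κ) - Real.pi * η ≤ ∫ θ in r..Real.pi, (F θ).re := by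
    apply tail F hF r κ η hr0.le hrp hκ0 hη0.le
    intro θ h1 h2
    have h3 : |θ| = θ := abs_of_nonneg (hr0.le.trans h1)
    have := hall θ (by rw [h3]; exact h2)
    rwa [h3] at this
  have hB' : -(Real.exp 1 / κ) - Real.pi * η ≤ ∫ θ in (-Real.pi)..(-r), (F θ).re := by
    have h1 := tail (fun θ => F (-θ)) (hF.comp continuous_neg) r κ η hr0.le hrp hκ0 hη0.le (by
      intro θ h1 h2
      have h3 : |-θ| = θ := by rw [abs_neg]; exact abs_of_nonneg (hr0.le.trans h1)
      have := hall (-θ) (by rw [h3]; exact h2)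
      rwa [h3] at this)
    have h2 := intervalIntegral.integral_comp_neg (a := r) (b := Real.pi) (fun θ => (F θ).re)
    rw [← h2]
    exact h1
  -- the constants
  have hk1 : Real.exp 1 / κ ≤ r * a / 4 := by
    rw [hκ, hr, div_le_iff₀ (by positivity)]
    have h1 : 32 * Real.exp 1 / (3 * c * a) ≤ T := by
      rw [hT]
      linarith
    rw [div_le_iff₀ (by positivity)] at h1
    have h2 : 1 / s ^ 3 * a / 4 * (3 / 8 * c * T * s ^ 3) = T * (3 * c * a) / 32 := by
      field_simp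
      ring
    rw [h2]
    linarith
  have hk2 : Real.pi * η ≤ r * a / 4 := by
    have h1 := Real.pow_div_factorial_le_exp (c' * N) (by positivity) 5
    have h2 : ((Nat.factorial 5 : ℕ) : ℝ) = 120 := by norm_num [Nat.factorial]
    rw [h2] at h1
    have h3 : Real.exp (-(c' * N)) ≤ 120 / (c' * N) ^ 5 := by
      rw [Real.exp_neg, inv_eq_one_div, div_le_div_iff₀ (Real.exp_pos _) (by positivity)]
      rw [div_le_iff₀ (by norm_num)] at h1
      linarith
    have h4 : Real.pi * η ≤ Real.pi * (C' * N ^ 2 * (120 / (c' * N) ^ 5)) := by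
      rw [hη]
      apply mul_le_mul_of_nonneg_left _ hpi.le
      exact mul_le_mul_of_nonneg_left h3 (by positivity)
    refine h4.trans ?_
    have h5 : Real.pi * (C' * N ^ 2 * (120 / (c' * N) ^ 5)) = 120 * Real.pi * C' / (c' ^ 5 * N ^ 3) := by
      field_simp
    have h6 : r * a / 4 = a / (4 * s ^ 3) := by
      rw [hr]
      field_simp
    rw [h5, h6, div_le_div_iff₀ (by positivity) (by positivity)]
    have h7 : 480 * Real.pi * C' ≤ N * (a * c' ^ 5) := by
      rw [hN1, div_le_iff₀ (by positivity)] at hNN1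
      exact hNN1
    have h8 : s ^ 3 ≤ N ^ 2 := by
      rw [hsN]
      calc s ^ 3 ≤ s ^ 4 := pow_le_pow_right₀ hs1 (by norm_num)
        _ = (s ^ 2) ^ 2 := by ring
    calc 120 * Real.pi * C' * (4 * s ^ 3) = (480 * Real.pi * C') * s ^ 3 := by ring
      _ ≤ (N * (a * c' ^ 5)) * N ^ 2 := mul_le_mul h7 h8 (by positivity) (by positivity)
      _ = a * (c' ^ 5 * N ^ 3) := by ring
  have hra : 0 < r * a := by positivity
  linarith

/-- **AN2** -/
theorem t_AN2 : S_AN2 := by
  intro c C K δ c' C' hc hC hK hδ hKδ hc' hC'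
  obtain ⟨N0, hN0, h⟩ := main c C K δ c' C' hc hC hK hδ hKδ hc' hC'
  refine ⟨N0, hN0, ?_⟩
  intro N σ ψ hN hσ1 hσ2 hψ hnear hfar
  have hgen : ∀ ε : ℝ, |ε| = 1 →
      0 < (∫ θ in (-Real.pi)..Real.pi, ψ θ * Complex.exp ((ε * θ : ℝ) * Complex.I)).re := by
    intro ε hε
    apply h N σ _ hN hσ1 hσ2
    · fun_prop
    · intro θ hθ
      obtain ⟨ρ, h1, h2⟩ := hnear θ hθ
      refine ⟨ρ + (ε * θ : ℝ) * Complex.I, ?_, ?_⟩
      · rw [h1, ← Complex.exp_add]
        congr 1
        ring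
      · have h3 : ‖((ε * θ : ℝ) : ℂ) * Complex.I‖ = |θ| := by
          rw [norm_mul, Complex.norm_I, mul_one, Complex.norm_real, Real.norm_eq_abs, abs_mul, hε,
            one_mul]
        have h4 := norm_add_le ρ (((ε * θ : ℝ) : ℂ) * Complex.I)
        linarith
    · intro θ h1 h2
      rw [norm_mul, Complex.norm_exp_ofReal_mul_I, mul_one]
      exact hfar θ h1 h2
  constructor
  · have := hgen 1 (by norm_num)
    simpa using this
  · have h1 := hgen (-1) (by norm_num)
    have h2 : ∀ θ : ℝ, Complex.exp (((-1 * θ : ℝ) : ℂ) * Complex.I) =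
        Complex.exp (-((θ : ℂ) * Complex.I)) := by
      intro θ
      congr 1
      push_cast
      ring
    simp only [h2] at h1
    exact h1

end Pool.Agent.V5helper37.QC
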